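import Pool.Agent.W544.KF.Defs2

/-! The recursion for the traces, and Newton identities. -/

set_option autoImplicit false

open Pool.Agent.W544.KF

namespace Pool.Agent.W392.KF

universe w v

theorem solve : S_solve.{w, v} := by
  intro F _ _ R _ _ t s g L hL0 hL e he0 he
  have h1 : ∀ n : ℕ, ((n : F) + 1) • L n =
      ∑ k ∈ Finset.range (n + 1), (s ^ k * e (n - k)) • g ^ (k + 1) := by
    intro n
    induction n with
    | zero => simp [hL0, he0]
    | succ n ih =>
      have e1 : (((n + 1 : ℕ) : F) + 1) = (n : F) + 2 := by push_cast; ring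
      rw [e1, hL, ← he, Finset.sum_range_succ']
      have e2 : (s * ((n : F) + 1)) • (g * L n) = s • (g * (((n : F) + 1) • L n)) := by
        rw [mul_smul_comm, smul_smul]
      rw [e2, ih, Finset.mul_sum, Finset.smul_sum, add_comm]
      congr 1
      · refine Finset.sum_congr rfl fun k _ => ?_
        rw [mul_smul_comm, smul_smul, pow_succ' g (k + 1), pow_succ' s k, Nat.add_sub_add_right,
          mul_assoc]
      · simp
  refine ⟨h1, fun n => ?_⟩
  have h2 := congrArg t (h1 n)
  rw [map_smul, ← he, map_sum, smul_eq_mul] at h2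
  rw [h2]
  refine Finset.sum_congr rfl fun k _ => ?_
  rw [map_smul, smul_eq_mul]

open PowerSeries in
theorem newton : S_newton.{w} := by
  intro F _ _ t e h he0 hh0 he hh a b ha hb
  set Hs : PowerSeries F := PowerSeries.mk h with hHs
  set Gs : PowerSeries F := PowerSeries.mk (fun n => (-1) ^ n * e n) with hGs
  set Ps : PowerSeries F := PowerSeries.mk (fun k => t (k + 1)) with hPs
  have hH : PowerSeries.derivative F Hs = Ps * Hs := by
    ext n
    rw [PowerSeries.coeff_derivative, hHs, PowerSeries.coeff_mk, PowerSeries.coeff_mul,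
      Finset.Nat.sum_antidiagonal_eq_sum_range_succ_mk, mul_comm, hh]
    refine Finset.sum_congr rfl fun k _ => ?_
    rw [hPs, PowerSeries.coeff_mk, PowerSeries.coeff_mk, mul_comm]
  have hG : PowerSeries.derivative F Gs = - (Ps * Gs) := by
    ext n
    rw [PowerSeries.coeff_derivative, hGs, PowerSeries.coeff_mk, map_neg, PowerSeries.coeff_mul,
      Finset.Nat.sum_antidiagonal_eq_sum_range_succ_mk]
    have e1 : (-1 : F) ^ (n + 1) * e (n + 1) * ((n : F) + 1) =
        (-1) ^ (n + 1) * (((n : F) + 1) * e (n + 1)) := by ring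
    rw [e1, he, Finset.mul_sum, ← Finset.sum_neg_distrib]
    refine Finset.sum_congr rfl fun k hk => ?_
    rw [hPs, PowerSeries.coeff_mk, PowerSeries.coeff_mk]
    have hkn : k ≤ n := Nat.lt_succ_iff.mp (Finset.mem_range.mp hk)
    have e2 : (-1 : F) ^ (n + 1) * (-1) ^ k = - (-1) ^ (n - k) := by
      have e3 : n + 1 + k = (n - k) + (2 * k + 1) := by omega
      rw [← pow_add, e3, pow_add, pow_succ, pow_mul]
      norm_num
    calc _ = ((-1 : F) ^ (n + 1) * (-1) ^ k) * (e (n - k) * t (k + 1)) := by ring
      _ = _ := by rw [e2]; ring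
  have hone : Hs * Gs = 1 := by
    refine PowerSeries.derivative.ext ?_ ?_
    · rw [Derivation.leibniz, hH, hG, smul_eq_mul, smul_eq_mul]
      rw [Derivation.map_one_eq_zero]
      ring
    · rw [map_mul, map_one, hHs, hGs, ← PowerSeries.coeff_zero_eq_constantCoeff_apply,
        ← PowerSeries.coeff_zero_eq_constantCoeff_apply, PowerSeries.coeff_mk,
        PowerSeries.coeff_mk, hh0, he0]
      simp
  let Hp : Polynomial F := ∑ n ∈ Finset.range (b + 1), Polynomial.monomial n (h n)
  let Gp : Polynomial F := ∑ n ∈ Finset.range (a + 1), Polynomial.monomial n ((-1) ^ n * e n)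
  have hHc : ∀ n, Hp.coeff n = h n := by
    intro n
    simp only [Hp, Polynomial.finsetSum_coeff, Polynomial.coeff_monomial]
    rw [Finset.sum_ite_eq' (Finset.range (b + 1)) n h]
    split_ifs with hn
    · rfl
    · rw [hb]
      rw [Finset.mem_range] at hn
      omega
  have hGc : ∀ n, Gp.coeff n = (-1) ^ n * e n := by
    intro n
    simp only [Gp, Polynomial.finsetSum_coeff, Polynomial.coeff_monomial]
    rw [Finset.sum_ite_eq' (Finset.range (a + 1)) n (fun n => (-1) ^ n * e n)]
    split_ifs with hn
    · rfl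
    · rw [ha, mul_zero]
      rw [Finset.mem_range] at hn
      omega
  have hHe : (Hp : PowerSeries F) = Hs := by
    ext n; rw [Polynomial.coeff_coe, hHc, hHs, PowerSeries.coeff_mk]
  have hGe : (Gp : PowerSeries F) = Gs := by
    ext n; rw [Polynomial.coeff_coe, hGc, hGs, PowerSeries.coeff_mk]
  have hpoly : Hp * Gp = 1 := by
    apply Polynomial.coe_injective F
    rw [Polynomial.coe_mul, hHe, hGe, hone, Polynomial.coe_one]
  have hu : IsUnit Hp := IsUnit.of_mul_eq_one _ hpoly
  have hdeg := Polynomial.natDegree_eq_zero_of_isUnit hu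
  have h1 : h 1 = 0 := by
    rw [← hHc]
    exact Polynomial.coeff_eq_zero_of_natDegree_lt (by omega)
  have h2 := hh 0
  simp [hh0, h1] at h2
  exact h2.symm

end Pool.Agent.W392.KF
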